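import Pool.Agent.W601.SQ.Stm

set_option autoImplicit false
open scoped Classical Cardinal
open Filter Topology

namespace Pool.Agent.W493.SQ

open Pool.Agent.W601.SQ

theorem dist_norm (a b : Circle) : dist a b = ‖(a : ℂ) - (b : ℂ)‖ := by
  change dist (a : ℂ) (b : ℂ) = _
  exact dist_eq_norm _ _

theorem dist_mul_inv (y d : Circle) : dist (y * d⁻¹) 1 = dist y d := by
  rw [dist_norm, dist_norm]
  have h : ((y * d⁻¹ : Circle) : ℂ) - ((1 : Circle) : ℂ) = ((y : ℂ) - (d : ℂ)) * ((d⁻¹ : Circle) : ℂ) := by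
    rw [Circle.coe_mul, Circle.coe_one, sub_mul]
    congr 1
    rw [← Circle.coe_mul, mul_inv_cancel, Circle.coe_one]
  rw [h, norm_mul, Circle.norm_coe, mul_one]

/-- Two points of the circle at the same distance from `1` are equal or inverse. -/
theorem eq_or_inv (y w : Circle) (h : dist y 1 = dist w 1) : y = w ∨ y = w⁻¹ := by
  have key : ∀ z : Circle, dist z 1 ^ 2 = 2 - 2 * (z : ℂ).re := by
    intro z
    have h1 : dist z 1 = ‖(z : ℂ) - 1‖ := by
      rw [dist_norm, Circle.coe_one]
    rw [h1, ← Complex.normSq_eq_norm_sq, Complex.normSq_apply]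
    have h2 : (z : ℂ).re * (z : ℂ).re + (z : ℂ).im * (z : ℂ).im = 1 := by
      have := Circle.normSq_coe z
      rwa [Complex.normSq_apply] at this
    simp only [Complex.sub_re, Complex.sub_im, Complex.one_re, Complex.one_im]
    nlinarith
  have hre : (y : ℂ).re = (w : ℂ).re := by
    have := key y; rw [h, key w] at this; linarith
  have hy : (y : ℂ).re * (y : ℂ).re + (y : ℂ).im * (y : ℂ).im = 1 := by
    have := Circle.normSq_coe y
    rwa [Complex.normSq_apply] at this
  have hw : (w : ℂ).re * (w : ℂ).re + (w : ℂ).im * (w : ℂ).im = 1 := by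
    have := Circle.normSq_coe w
    rwa [Complex.normSq_apply] at this
  have him : (y : ℂ).im * (y : ℂ).im = (w : ℂ).im * (w : ℂ).im := by
    rw [hre] at hy; linarith
  rcases mul_self_eq_mul_self_iff.1 him with h3 | h3
  · left
    exact Circle.ext (Complex.ext hre h3)
  · right
    apply Circle.ext
    rw [Circle.coe_inv_eq_conj]
    apply Complex.ext
    · simpa using hre
    · simpa using h3

theorem small_not_mem (P : Subgroup Circle) (hP : ∃ z, z ∉ P) (δ : ℝ) (hδ : 0 < δ) :
    ∃ w : Circle, w ∉ P ∧ dist w 1 < δ := by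
  by_contra hcon
  push Not at hcon
  obtain ⟨z, hz⟩ := hP
  apply hz
  obtain ⟨t, ht⟩ : ∃ t : ℝ, Circle.exp t = z := ⟨Complex.arg z, Circle.exp_arg z⟩
  have hc : Tendsto (fun n : ℕ => Circle.exp (t / ((n : ℝ) + 1))) atTop (𝓝 1) := by
    have h1 : Tendsto (fun n : ℕ => t / ((n : ℝ) + 1)) atTop (𝓝 0) := by
      have h2 := (tendsto_one_div_add_atTop_nhds_zero_nat (𝕜 := ℝ)).const_mul t
      simp only [mul_zero] at h2
      refine h2.congr fun n => by ring
    have h3 : Tendsto (fun x : ℝ => Circle.exp x) (𝓝 0) (𝓝 (Circle.exp 0)) :=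
      (Circle.exp.continuous.tendsto 0)
    rw [Circle.exp_zero] at h3
    exact h3.comp h1
  have h4 : ∀ᶠ n : ℕ in atTop, dist (Circle.exp (t / ((n : ℝ) + 1))) 1 < δ :=
    hc.eventually (Metric.ball_mem_nhds 1 hδ)
  obtain ⟨n, hn⟩ := h4.exists
  have h5 : Circle.exp (t / ((n : ℝ) + 1)) ∈ P := by
    by_contra h6
    exact absurd hn (not_lt.2 (hcon _ h6))
  have h7 : z = Circle.exp (t / ((n : ℝ) + 1)) ^ (n + 1) := by
    rw [← ht, ← Circle.exp_nsmul]
    congr 1
    rw [nsmul_eq_mul]
    push_cast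
    field_simp
  rw [h7]
  exact P.pow_mem h5 _

theorem arc : S_ARC := by
  intro P hP
  choose w hwP hwd using fun k : ℕ => small_not_mem P hP (1 / ((k : ℝ) + 1)) (by positivity)
  have : Nonempty ↥P := ⟨1⟩
  let d : ℕ → ↥P := TopologicalSpace.denseSeq ↥P
  have hd : DenseRange d := TopologicalSpace.denseRange_denseSeq ↥P
  refine ⟨fun n => Metric.ball ((d n.unpair.1 : ↥P) : Circle) (dist (w n.unpair.2) 1),
    fun n => (Metric.closedBall ((d n.unpair.1 : ↥P) : Circle) (dist (w n.unpair.2) 1))ᶜ, ?_, ?_⟩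
  · intro n
    refine ⟨Metric.isOpen_ball, Metric.isClosed_closedBall.isOpen_compl, ?_, ?_⟩
    · rw [Set.disjoint_compl_right_iff_subset]
      exact Metric.ball_subset_closedBall
    · intro y hy
      by_cases h1 : y ∈ Metric.ball ((d n.unpair.1 : ↥P) : Circle) (dist (w n.unpair.2) 1)
      · exact Or.inl h1
      · right
        simp only [Metric.mem_ball, not_lt] at h1
        simp only [Set.mem_compl_iff, Metric.mem_closedBall, not_le]
        refine lt_of_le_of_ne h1 fun h2 => ?_
        have h3 : dist (y * ((d n.unpair.1 : ↥P) : Circle)⁻¹) 1 = dist (w n.unpair.2) 1 := by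
          rw [h2, dist_mul_inv]
        have h4 : y * ((d n.unpair.1 : ↥P) : Circle)⁻¹ ∈ P :=
          P.mul_mem hy (P.inv_mem (d n.unpair.1).2)
        rcases eq_or_inv _ _ h3 with h5 | h5
        · rw [h5] at h4; exact hwP _ h4
        · rw [h5, inv_mem_iff] at h4; exact hwP _ h4
  · intro x hx δ hδ
    obtain ⟨k, hk⟩ := exists_nat_one_div_lt (half_pos hδ)
    have hpos : 0 < dist (w k) 1 := dist_pos.2 fun h => hwP k (h ▸ P.one_mem)
    obtain ⟨i, hi⟩ := hd.exists_dist_lt (⟨x, hx⟩ : ↥P) hpos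
    have hi' : dist x ((d i : ↥P) : Circle) < dist (w k) 1 := hi
    refine ⟨Nat.pair i k, ?_, ?_⟩
    · simpa only [Nat.unpair_pair, Metric.mem_ball] using hi'
    · intro y hy
      simp only [Nat.unpair_pair, Metric.mem_ball] at hy
      calc dist y x ≤ dist y ((d i : ↥P) : Circle) + dist ((d i : ↥P) : Circle) x := dist_triangle _ _ _
        _ < dist (w k) 1 + dist (w k) 1 := by
            rw [dist_comm ((d i : ↥P) : Circle) x]; exact add_lt_add hy hi'
        _ < δ := by have := hwd k; linarith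

end Pool.Agent.W493.SQ
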